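import Pool.Agent.H47.GF.Ty

/-!
# From a finite convergent presentation of the groupoid to one of `G * F` (MP_56d4a1_al)
-/

set_option autoImplicit false

namespace Pool.Agent.H47.GF

open H1.RW Monoid Relation

/-- finite convergent presentation of the groupoid, as data -/
structure Sys (G X : Type) [Group G] where
  /-- number of arrows -/
  N : ℕ
  /-- source -/
  src : Fin N → X
  /-- target -/
  tgt : Fin N → X
  /-- values -/
  lab : Fin N → G
  /-- rules -/
  R : List (List (Fin N) × List (Fin N))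
  hR : ∀ p ∈ R, ∃ x y, Path src tgt x p.1 y ∧ Path src tgt x p.2 y
  hT : WellFounded (fun v u : List (Fin N) => (∃ x y, Path src tgt x u y) ∧ Step R u v)
  surj : ∀ x y g, ∃ u, Path src tgt x u y ∧ (u.map lab).prod = g
  join : ∀ x y u v, Path src tgt x u y → Path src tgt x v y →
      ((u.map lab).prod = (v.map lab).prod ↔
        ∃ z, ReflTransGen (Step R) u z ∧ ReflTransGen (Step R) v z)

namespace Sys

variable {G X : Type} [Group G] (S : Sys G X)

/-- typed words -/
abbrev Pa (x : X) (u : List (Fin S.N)) (y : X) : Prop := Path S.src S.tgt x u y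

/-- value of a word -/
def val (u : List (Fin S.N)) : G := (u.map S.lab).prod

variable {S}

theorem ne (p) (hp : p ∈ S.R) : p.1 ≠ [] := rule_ne S.hR S.hT p hp

theorem pa_step {u v : List (Fin S.N)} {x y : X} (h : Step S.R u v) (hp : S.Pa x u y) :
    S.Pa x v y := path_step S.hR ne h hp

theorem term [Nonempty X] : Terminating S.R := terminating S.hR S.hT

theorem rule_val {p} (hp : p ∈ S.R) : S.val p.1 = S.val p.2 := by
  obtain ⟨x, y, h1, h2⟩ := S.hR p hp
  exact (S.join x y p.1 p.2 h1 h2).2 ⟨p.2, ReflTransGen.single ⟨[], [], p, hp, by simp, by simp⟩,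
    ReflTransGen.refl⟩

theorem val_append (u v : List (Fin S.N)) : S.val (u ++ v) = S.val u * S.val v := by
  simp [val]

theorem val_step {u v : List (Fin S.N)} (h : Step S.R u v) : S.val u = S.val v := by
  obtain ⟨a, b, p, hp, rfl, rfl⟩ := h
  simp only [val_append, rule_val hp]

theorem typed_join {u v w : List (Fin S.N)} {x y : X} (hp : S.Pa x u y)
    (hv : Step S.R u v) (hw : Step S.R u w) :
    ∃ z, ReflTransGen (Step S.R) v z ∧ ReflTransGen (Step S.R) w z :=
  (S.join x y v w (pa_step hv hp) (pa_step hw hp)).1 ((val_step hv).symm.trans (val_step hw))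

theorem join_context {z z1 z2 : List (Fin S.N)} {x y : X} (a b : List (Fin S.N))
    (hp : S.Pa x z y) (h1 : Step S.R z z1) (h2 : Step S.R z z2) :
    ∃ t, ReflTransGen (Step S.R) (a ++ z1 ++ b) t ∧
      ReflTransGen (Step S.R) (a ++ z2 ++ b) t := by
  obtain ⟨t, ht1, ht2⟩ := typed_join hp h1 h2
  exact ⟨a ++ t ++ b, rtg_context a b ht1, rtg_context a b ht2⟩

/-- Local confluence, the case that the first occurrence starts first. -/
theorem local_aux {a b c d : List (Fin S.N)} {p q : List (Fin S.N) × List (Fin S.N)}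
    (hp : p ∈ S.R) (hq : q ∈ S.R) (h : p.1 ++ b = c ++ q.1 ++ d) :
    ∃ t, ReflTransGen (Step S.R) (a ++ p.2 ++ b) t ∧
      ReflTransGen (Step S.R) (a ++ c ++ q.2 ++ d) t := by
  obtain ⟨x, y, hx1, hx2⟩ := S.hR p hp
  obtain ⟨x', y', hx1', hx2'⟩ := S.hR q hq
  rw [List.append_assoc] at h
  rcases List.append_eq_append_iff.1 h with ⟨e, he1, he2⟩ | ⟨e, he1, he2⟩
  · -- disjoint: c = p.1 ++ e, b = e ++ (q.1 ++ d)
    refine ⟨a ++ p.2 ++ e ++ q.2 ++ d, ?_, ?_⟩
    · apply ReflTransGen.single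
      refine ⟨a ++ p.2 ++ e, d, q, hq, ?_, rfl⟩
      rw [he2]; simp
    · apply ReflTransGen.single
      refine ⟨a, e ++ q.2 ++ d, p, hp, ?_, ?_⟩
      · rw [he1]; simp
      · simp
  · -- p.1 = c ++ e, q.1 ++ d = e ++ b
    by_cases he0 : e = []
    · subst he0
      rw [List.append_nil] at he1
      rw [List.nil_append] at he2
      refine ⟨a ++ p.2 ++ q.2 ++ d, ?_, ?_⟩
      · apply ReflTransGen.single
        refine ⟨a ++ p.2, d, q, hq, ?_, rfl⟩
        rw [← he2]; simp
      · apply ReflTransGen.single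
        refine ⟨a, q.2 ++ d, p, hp, ?_, ?_⟩
        · rw [he1]; simp
        · simp
    rcases List.append_eq_append_iff.1 he2 with ⟨f, hf1, hf2⟩ | ⟨f, hf1, hf2⟩
    · -- e = q.1 ++ f, d = f ++ b: nested
      have hz : p.1 = c ++ q.1 ++ f := by rw [he1, hf1, List.append_assoc]
      obtain ⟨t, ht1, ht2⟩ := join_context (z := p.1) (z1 := p.2) (z2 := c ++ q.2 ++ f) a b hx1
        ⟨[], [], p, hp, by simp, by simp⟩ ⟨c, f, q, hq, hz, rfl⟩
      refine ⟨t, ht1, ?_⟩
      have : a ++ c ++ q.2 ++ d = a ++ (c ++ q.2 ++ f) ++ b := by rw [hf2]; simp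
      rw [this]
      exact ht2
    · -- q.1 = e ++ f, b = f ++ d
      have hz : S.Pa x (c ++ e ++ f) y' := by
        show Path S.src S.tgt x (c ++ e ++ f) y'
        rw [← he1, path_append]
        refine ⟨y, hx1, ?_⟩
        rw [he1, path_append] at hx1
        obtain ⟨z, hz1, hz2⟩ := hx1
        rw [hf1, path_append] at hx1'
        obtain ⟨z', hz1', hz2'⟩ := hx1'
        have e1 : z = x' := Path.start he0 hz2 hz1'
        subst e1
        have e2 : y = z' := Path.end_eq hz2 hz1'
        subst e2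
        exact hz2'
      obtain ⟨t, ht1, ht2⟩ := join_context (z := c ++ e ++ f) (z1 := p.2 ++ f)
        (z2 := c ++ q.2) a d hz
        ⟨[], f, p, hp, by rw [he1]; simp, by simp⟩ ⟨c, [], q, hq, by rw [hf1]; simp, by simp⟩
      refine ⟨t, ?_, ?_⟩
      · have : a ++ p.2 ++ b = a ++ (p.2 ++ f) ++ d := by rw [hf2]; simp
        rw [this]
        exact ht1
      · have : a ++ c ++ q.2 ++ d = a ++ (c ++ q.2) ++ d := by simp
        rw [this]
        exact ht2

theorem confl [Nonempty X] : Confluent S.R := by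
  refine newman (term (S := S)) ?_
  rintro u v w ⟨a, b, p, hp, h1, rfl⟩ ⟨a', b', q, hq, h2, rfl⟩
  have h : a ++ (p.1 ++ b) = a' ++ (q.1 ++ b') := by
    rw [← List.append_assoc, ← List.append_assoc, ← h1, ← h2]
  rcases List.append_eq_append_iff.1 h with ⟨c, hc1, hc2⟩ | ⟨c, hc1, hc2⟩
  · have := local_aux (a := a) (b := b) (c := c) (d := b') hp hq (by rw [hc2]; simp)
    rw [hc1]
    exact this
  · obtain ⟨t, ht1, ht2⟩ := local_aux (a := a') (b := b') (c := c) (d := b) hq hp
      (by rw [hc2]; simp)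
    rw [hc1]
    exact ⟨t, ht2, ht1⟩

variable (S)

/-- The presented monoid. -/
abbrev Mon : Type := (ruleCon S.R).Quotient

/-- The class of the typed words with start `x`, value `g` and end `y`. -/
noncomputable def P (x : X) (g : G) (y : X) : S.Mon := cls S.R (S.surj x y g).choose

variable {S}

theorem P_spec {x y : X} {u : List (Fin S.N)} {g : G} (hp : S.Pa x u y) (hg : S.val u = g) :
    cls S.R u = S.P x g y := by
  have h := (S.surj x y g).choose_spec
  obtain ⟨z, h1, h2⟩ := (S.join x y u (S.surj x y g).choose hp h.1).1 (hg.trans h.2.symm)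
  unfold P
  rw [cls_eq_of_rtg h1, cls_eq_of_rtg h2]

theorem P_mul (x y z : X) (g g' : G) : S.P x g y * S.P y g' z = S.P x (g * g') z := by
  have h := (S.surj x y g).choose_spec
  have h' := (S.surj y z g').choose_spec
  unfold P
  rw [← cls_append]
  refine P_spec (path_append.2 ⟨y, h.1, h'.1⟩) ?_
  rw [val_append]
  exact congrArg₂ (· * ·) h.2 h'.2

theorem P_one (x : X) : S.P x 1 x = 1 := by
  rw [← cls_nil (R := S.R)]
  have hp : S.Pa x [] x := rfl
  exact (P_spec hp (by simp [val])).symm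

variable (S) (x0 : X)

/-- The target group. -/
abbrev Tgt (x0 : X) (G : Type) [Group G] : Type := Monoid.Coprod G (FreeGroup {x : X // x ≠ x0})

open Classical in
/-- The elements `ξ x`. -/
noncomputable def xi (G : Type) [Group G] (x0 x : X) : Tgt x0 G :=
  if h : x = x0 then 1 else Monoid.Coprod.inr (FreeGroup.of ⟨x, h⟩)

theorem xi_x0 (G : Type) [Group G] (x0 : X) : xi G x0 x0 = 1 := by unfold xi; rw [dif_pos rfl]

theorem xi_ne (G : Type) [Group G] {x0 x : X} (h : x ≠ x0) :
    xi G x0 x = Monoid.Coprod.inr (FreeGroup.of ⟨x, h⟩) := by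
  unfold xi; rw [dif_neg h]

/-- The homomorphism to `G * F` on the free monoid. -/
noncomputable def Phi0 : FreeMonoid (Fin S.N) →* Tgt x0 G :=
  FreeMonoid.lift (fun b => (xi G x0 (S.src b))⁻¹ * Monoid.Coprod.inl (S.lab b) *
    xi G x0 (S.tgt b))

variable {S x0}

theorem Phi0_path {x y : X} {u : List (Fin S.N)} (hp : S.Pa x u y) :
    S.Phi0 x0 (FreeMonoid.ofList u) =
      (xi G x0 x)⁻¹ * Monoid.Coprod.inl (S.val u) * xi G x0 y := by
  induction u generalizing x with
  | nil =>
    have : x = y := hp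
    subst this
    have : S.val [] = 1 := by simp [val]
    rw [this, FreeMonoid.ofList_nil, map_one, map_one]; group
  | cons b u ih =>
    have h0 : S.Phi0 x0 (FreeMonoid.of b) = (xi G x0 (S.src b))⁻¹ *
          Monoid.Coprod.inl (S.lab b) * xi G x0 (S.tgt b) := by
      unfold Phi0
      rw [FreeMonoid.lift_eval_of]
    have hv : S.val (b :: u) = S.lab b * S.val u := by simp [val]
    rw [FreeMonoid.ofList_cons, map_mul, ih hp.2, h0, hv, map_mul, hp.1]
    group

variable (S x0)

/-- The homomorphism to `G * F`. -/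
noncomputable def Phi : S.Mon →* Tgt x0 G :=
  (ruleCon S.R).lift (S.Phi0 x0) (by
    unfold ruleCon
    rw [Con.conGen_le]
    rintro a b ⟨p, hp, rfl, rfl⟩
    obtain ⟨x, y, h5, h6⟩ := S.hR p hp
    change S.Phi0 x0 _ = S.Phi0 x0 _
    rw [Phi0_path h5, Phi0_path h6, rule_val hp])

variable {S x0}

theorem Phi_P (x y : X) (g : G) :
    S.Phi x0 (S.P x g y) = (xi G x0 x)⁻¹ * Monoid.Coprod.inl g * xi G x0 y := by
  have h := (S.surj x y g).choose_spec
  have e : S.Phi x0 (S.P x g y) = S.Phi0 x0 (FreeMonoid.ofList (S.surj x y g).choose) := rfl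
  rw [e, Phi0_path h.1]
  have : S.val (S.surj x y g).choose = g := h.2
  rw [this]

variable (S x0)

/-- `G` maps to the presented monoid. -/
noncomputable def PsiG : G →* S.Mon where
  toFun g := S.P x0 g x0
  map_one' := P_one _
  map_mul' a b := (P_mul x0 x0 x0 a b).symm

/-- The units `ξ x`. -/
noncomputable def unitX (x : X) : S.Monˣ where
  val := S.P x0 1 x
  inv := S.P x 1 x0
  val_inv := by rw [P_mul, one_mul, P_one]
  inv_val := by rw [P_mul, one_mul, P_one]

/-- The free group maps to the presented monoid. -/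
noncomputable def PsiF : FreeGroup {x : X // x ≠ x0} →* S.Mon :=
  (Units.coeHom S.Mon).comp (FreeGroup.lift (fun x : {x : X // x ≠ x0} => S.unitX x0 x.1))

/-- `G * F` maps to the presented monoid. -/
noncomputable def Psi : Tgt x0 G →* S.Mon :=
  Monoid.Coprod.lift (S.PsiG x0) (S.PsiF x0)

variable {S x0}

theorem Psi_inl (g : G) : S.Psi x0 (Monoid.Coprod.inl g) = S.P x0 g x0 := by
  unfold Psi
  rw [Monoid.Coprod.lift_apply_inl]
  rfl

theorem Psi_xi (x : X) : S.Psi x0 (xi G x0 x) = S.P x0 1 x := by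
  by_cases h : x = x0
  · rw [h, xi_x0, map_one]
    exact (P_one _).symm
  · rw [xi_ne G h]
    unfold Psi
    rw [Monoid.Coprod.lift_apply_inr]
    unfold PsiF
    rw [MonoidHom.comp_apply, FreeGroup.lift_apply_of]
    rfl

theorem Psi_xi_inv (x : X) : S.Psi x0 (xi G x0 x)⁻¹ = S.P x 1 x0 := by
  have h1 : S.Psi x0 (xi G x0 x)⁻¹ * S.Psi x0 (xi G x0 x) = 1 := by
    rw [← map_mul, inv_mul_cancel, map_one]
  have h2 : S.Psi x0 (xi G x0 x) * S.P x 1 x0 = 1 := by
    rw [Psi_xi, P_mul, one_mul, P_one]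
  calc S.Psi x0 (xi G x0 x)⁻¹ = S.Psi x0 (xi G x0 x)⁻¹ * (S.Psi x0 (xi G x0 x) * S.P x 1 x0) := by
        rw [h2, mul_one]
    _ = S.P x 1 x0 := by rw [← mul_assoc, h1, one_mul]

theorem Phi_comp_Psi : (S.Phi x0).comp (S.Psi x0) = MonoidHom.id _ := by
  apply Monoid.Coprod.hom_ext
  · ext g
    simp only [MonoidHom.comp_apply, MonoidHom.id_apply]
    rw [Psi_inl, Phi_P, xi_x0]
    group
  · ext x
    simp only [MonoidHom.comp_apply, MonoidHom.id_apply]
    rw [← xi_ne G x.2, Psi_xi, Phi_P, xi_x0, map_one]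
    group

theorem Psi_Phi0 (b : Fin S.N) : S.Psi x0 (S.Phi0 x0 (FreeMonoid.of b)) = cls S.R [b] := by
  have hp : S.Pa (S.src b) [b] (S.tgt b) := ⟨rfl, rfl⟩
  have e : FreeMonoid.of b = FreeMonoid.ofList [b] := rfl
  rw [e, Phi0_path hp, map_mul, map_mul, Psi_xi_inv, Psi_inl, Psi_xi, P_mul, P_mul, one_mul,
    mul_one]
  exact (P_spec hp rfl).symm

theorem Psi_comp_Phi : (S.Psi x0).comp (S.Phi x0) = MonoidHom.id _ := by
  apply Con.hom_ext
  apply FreeMonoid.hom_eq
  intro b
  exact Psi_Phi0 b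

variable (S x0)

/-- The isomorphism. -/
noncomputable def iso : Tgt x0 G ≃* S.Mon :=
  MonoidHom.toMulEquiv (S.Psi x0) (S.Phi x0) Phi_comp_Psi Psi_comp_Phi

end Sys

theorem Sys.hasFCRS {G X : Type} [Group G] (S : Sys G X) (x0 : X) : HasFCRS (Sys.Tgt x0 G) := by
  have : Nonempty X := ⟨x0⟩
  exact ⟨S.N, S.R, Sys.term, Sys.confl, ⟨S.iso x0⟩⟩

/-- From the groupoid with `k + 1` objects to `G * F_k`. -/
theorem hasFCRS_of_groupoid (G : Type) [Group G] (k : ℕ) (h : GroupoidFCRS G (Fin (k + 1))) :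
    HasFCRS (Monoid.Coprod G (FreeGroup (Fin k))) := by
  classical
  obtain ⟨N, src, tgt, lab, R, h1, h2, h3, h4⟩ := h
  let S : Sys G (Fin (k + 1)) := ⟨N, src, tgt, lab, R, h1, h2, h3, h4⟩
  have hc : Fintype.card {x : Fin (k + 1) // x ≠ 0} = k := by
    rw [Fintype.card_subtype_compl, Fintype.card_subtype_eq, Fintype.card_fin]
    rfl
  exact (S.hasFCRS 0).congr (H1.RW.coprodCongr G (Fintype.equivFinOfCardEq hc))

end Pool.Agent.H47.GF
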