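import Pool.Agent.H47.GF.Iso

/-!
# The groupoid presentation of a free factor (MP_56d4a1_al)
-/

set_option autoImplicit false

namespace Pool.Agent.H47.GF

open H1.RW Monoid Relation

/-- The core of a free factor (proof of `H1.RW.freeFactor`, the core kept). -/
theorem exists_core_coprod (G K : Type) [Group G] [Group K] (n : ℕ)
    (R : List (List (Fin n) × List (Fin n))) (hT : Terminating R) (hC : Confluent R)
    (e : Coprod G K ≃* (ruleCon R).Quotient) (g0 : Fin n → G) (s : Fin n → List (K × G))
    (hs : ∀ a, e (Coprod.inl (g0 a) * val (s a)) = cls R [a]) :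
    ∃ (X : Type) (_ : Finite X), Nonempty (Core (Fin n) G (Coprod G K) X) := by
  classical
  obtain ⟨φ, h2, h3, h4, h5⟩ := data_of_equiv hT hC e
  have hφ : ∀ a, φ (FreeMonoid.ofList [a]) = Coprod.inl (g0 a) * val (s a) := by
    intro a
    rw [h2, ← MulEquiv.symm_apply_apply e (Coprod.inl (g0 a) * val (s a)), hs a]
    rfl
  set Gs : Subgroup (Coprod G K) := (Coprod.inl : G →* Coprod G K).range with hGs
  let Q := Quotient (QuotientGroup.rightRel Gs)
  let q0 : Q := Quotient.mk _ (1 : Coprod G K)
  let pos : Fin n → ℕ → Coprod G K := fun a i => Coprod.inl (g0 a) * val ((s a).take i)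
  let S : Finset Q := insert q0 (Finset.univ.biUnion (fun a : Fin n =>
    (Finset.Ico 1 (s a).length).image (fun i => (Quotient.mk _ (pos a i)⁻¹ : Q))))
  have hq0 : q0 ∈ S := Finset.mem_insert_self _ _
  let X := {q : Q // q ∈ S}
  let x0 : X := ⟨q0, hq0⟩
  let r : X → Coprod G K := fun x => if x = x0 then 1 else x.1.out
  have hr : ∀ x : X, (Quotient.mk (QuotientGroup.rightRel Gs) (r x) : Q) = x.1 := by
    intro x
    by_cases hx : x = x0
    · simp only [r, if_pos hx]
      rw [hx]
    · simp only [r, if_neg hx]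
      exact Quotient.out_eq x.1
  have hrx0 : r x0 = 1 := by simp only [r, if_pos rfl]
  -- the union of the cosets
  let V : Coprod G K → Prop := fun h => ∃ (y : X) (g : G), h = Coprod.inl g * r y
  have hV : ∀ h : Coprod G K, V h ↔ (Quotient.mk (QuotientGroup.rightRel Gs) h : Q) ∈ S := by
    intro h
    constructor
    · rintro ⟨y, g, hy⟩
      have : (Quotient.mk (QuotientGroup.rightRel Gs) h : Q) = y.1 := by
        rw [← hr y]
        apply Quotient.sound
        change QuotientGroup.rightRel Gs h (r y)
        rw [QuotientGroup.rightRel_apply, hy]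
        refine ⟨g⁻¹, ?_⟩
        rw [map_inv]
        group
      rw [this]
      exact y.2
    · intro hh
      refine ⟨⟨_, hh⟩, ?_⟩
      have h6 : QuotientGroup.rightRel Gs (r ⟨_, hh⟩) h := Quotient.exact (hr ⟨_, hh⟩)
      rw [QuotientGroup.rightRel_apply] at h6
      obtain ⟨g, hg⟩ := h6
      refine ⟨g, ?_⟩
      rw [hg]
      group
  have hVG : ∀ h, InG h → V h := by
    rintro h ⟨g, rfl⟩
    exact ⟨x0, g, by rw [hrx0, mul_one]⟩
  have hVcross : ∀ h, ¬ V h → ∀ a i, 1 ≤ i → i < (s a).length → ¬ InG (h * pos a i) := by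
    rintro h hh a i h1 h2 ⟨g, hg⟩
    apply hh
    rw [hV]
    apply Finset.mem_insert_of_mem
    rw [Finset.mem_biUnion]
    refine ⟨a, Finset.mem_univ _, ?_⟩
    rw [Finset.mem_image]
    refine ⟨i, Finset.mem_Ico.2 ⟨h1, h2⟩, ?_⟩
    apply Quotient.sound
    change QuotientGroup.rightRel Gs _ _
    rw [QuotientGroup.rightRel_apply]
    refine ⟨g, ?_⟩
    rw [← hg]
    group
  -- steps outside `V` do not change `gam`
  have hstep : ∀ h a, ¬ V h → ¬ V (h * φ (FreeMonoid.ofList [a])) →
      gam (h * φ (FreeMonoid.ofList [a])) = gam h := by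
    intro h a h1 h2
    have h6 : ¬ InG h := fun hh => h1 (hVG h hh)
    have h7 : ¬ InG (h * Coprod.inl (g0 a)) := by rwa [InG.mul_inl_iff]
    rw [hφ, ← mul_assoc] at h2 ⊢
    rw [walkA (s a) _ h7 ?_ (fun hh => h2 (hVG _ hh)), gam_mul_inl h6]
    intro i hi1 hi2
    rw [mul_assoc]
    exact hVcross h h1 a i hi1 hi2
  have hsteps : ∀ (w : List (Fin n)) h, ¬ V h →
      (∀ p t, p ++ t = w → ¬ V (h * φ (FreeMonoid.ofList p))) →
      gam (h * φ (FreeMonoid.ofList w)) = gam h := by
    intro w
    induction w using List.reverseRecOn with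
    | nil => intro h _ _; rw [FreeMonoid.ofList_nil, map_one, mul_one]
    | append_singleton w a ih =>
      intro h h1 h2
      have h6 := h2 w [a] rfl
      have h7 := h2 (w ++ [a]) [] (by simp)
      rw [FreeMonoid.ofList_append, map_mul, ← mul_assoc] at h7 ⊢
      rw [hstep _ a h6 h7]
      refine ih h h1 ?_
      intro p t hpt
      exact h2 p (t ++ [a]) (by rw [← List.append_assoc, hpt])
  -- the possible end points
  let E : X → Set (Coprod G K) := fun x =>
    (Set.range (fun a : Fin n => r x * φ (FreeMonoid.ofList [a]))) ∪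
    ((⋃ a : Fin n, ⋃ c : Fin n,
      (fun d => Coprod.inl (gam (r x * φ (FreeMonoid.ofList [a]))) * d) ''
        {d | d ∈ ends (s c)}) ∪
     (⋃ a : Fin n, Set.range (fun y : X =>
      Coprod.inl (gam (r x * φ (FreeMonoid.ofList [a])) * (gam (r y))⁻¹) * r y)))
  have hEfin : ∀ x, (E x).Finite := by
    intro x
    refine (Set.finite_range _).union (Set.Finite.union ?_ ?_)
    · refine Set.finite_iUnion fun a => Set.finite_iUnion fun c => Set.Finite.image _ ?_
      exact List.finite_toSet _
    · exact Set.finite_iUnion fun a => Set.finite_range _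
  obtain ⟨C⟩ := exists_core R hT φ h3 h4 h5 (Coprod.inl : G →* Coprod G K)
    Coprod.inl_injective x0 r hrx0 (by
      intro x y g hg
      apply Subtype.ext
      rw [← hr x, ← hr y]
      apply Quotient.sound
      change QuotientGroup.rightRel Gs (r x) (r y)
      rw [QuotientGroup.rightRel_apply, hg]
      refine ⟨g⁻¹, ?_⟩
      rw [map_inv]
      group) (by
      have htfin : {p : X × Coprod G K | p.2 ∈ E p.1}.Finite := by
        have : {p : X × Coprod G K | p.2 ∈ E p.1} = ⋃ x : X, (Prod.mk x) '' (E x) := by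
          ext ⟨x, h⟩
          simp
        rw [this]
        exact Set.finite_iUnion fun x => (hEfin x).image _
      refine Set.Finite.of_injOn (f := fun p : X × List (Fin n) =>
        (p.1, r p.1 * φ (FreeMonoid.ofList p.2))) ?_ ?_ htfin
      · rintro ⟨x, w⟩ ⟨hw1, hw2, ⟨y, g, hw3⟩, hw4⟩
        change r x * φ (FreeMonoid.ofList w) ∈ E x
        cases w with
        | nil => exact absurd rfl hw1
        | cons a w =>
          rcases List.eq_nil_or_concat w with rfl | ⟨m, c, hmc⟩
          · exact Or.inl ⟨a, rfl⟩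
          rw [List.concat_eq_append] at hmc
          subst hmc
          · right
            simp only at hw3 hw4
            have hv1 : ∀ p t, p ++ t = m →
                ¬ V (r x * φ (FreeMonoid.ofList [a]) * φ (FreeMonoid.ofList p)) := by
              rintro p t hpt ⟨z, g', hz⟩
              refine hw4 (a :: p) (t ++ [c]) (by rw [← hpt]; simp) (by simp) (by simp) z g' ?_
              rw [FreeMonoid.ofList_cons, map_mul, ← mul_assoc]
              exact hz
            have hv2 := hsteps m (r x * φ (FreeMonoid.ofList [a])) (by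
              have := hv1 [] m rfl
              rwa [FreeMonoid.ofList_nil, map_one, mul_one] at this) hv1
            have hv3 := hv1 m [] (by simp)
            set h := r x * φ (FreeMonoid.ofList [a]) * φ (FreeMonoid.ofList m) with hh
            have hv4 : ¬ InG h := fun hh => hv3 (hVG h hh)
            have hv5 : ¬ InG (h * Coprod.inl (g0 c)) := by rwa [InG.mul_inl_iff]
            have hend : r x * φ (FreeMonoid.ofList (a :: (m ++ [c]))) =
                h * Coprod.inl (g0 c) * val (s c) := by
              rw [FreeMonoid.ofList_cons, FreeMonoid.ofList_append, map_mul, map_mul, hφ c, hh]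
              simp only [mul_assoc]
              rfl
            rw [hend]
            have hg1 : gam (h * Coprod.inl (g0 c)) =
                gam (r x * φ (FreeMonoid.ofList [a])) := by
              rw [gam_mul_inl hv4, hv2]
            rcases walkB (s c) _ hv5 with hB | ⟨d, hd1, hd2⟩
            · right
              rw [Set.mem_iUnion]
              refine ⟨a, y, ?_⟩
              have e1 : h * Coprod.inl (g0 c) * val (s c) = Coprod.inl g * r y := by
                rw [← hend]; exact hw3
              have e2 : g * gam (r y) = gam (r x * φ (FreeMonoid.ofList [a])) := by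
                rw [← gam_inl_mul, ← e1, hB, hg1]
              simp only
              rw [e1, ← e2]
              congr 2
              group
            · left
              rw [Set.mem_iUnion]
              refine ⟨a, ?_⟩
              rw [Set.mem_iUnion]
              refine ⟨c, d, hd1, ?_⟩
              simp only
              rw [hd2, hg1]
      · rintro ⟨x, w⟩ ⟨_, hw2, _, _⟩ ⟨x', w'⟩ ⟨_, hw2', _, _⟩ heq
        simp only [Prod.mk.injEq] at heq
        obtain ⟨rfl, heq⟩ := heq
        rw [h5 w w' hw2 hw2' (mul_left_cancel heq)])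
  exact ⟨X, inferInstance, ⟨C⟩⟩

theorem path_iff {A G H X : Type} [Group G] [Group H] (C : Core A G H X) :
    ∀ (u : List (Fin C.N)) (x y : X), Path C.src C.tgt x u y ↔ C.Path x u y := by
  intro u
  induction u with
  | nil => intro x y; exact Iff.rfl
  | cons b u ih =>
    intro x y
    show (C.src b = x ∧ Path C.src C.tgt (C.tgt b) u y) ↔ (C.src b = x ∧ C.Path (C.tgt b) u y)
    rw [ih]

theorem core_val {A G H X : Type} [Group G] [Group H] (C : Core A G H X) :
    ∀ (u : List (Fin C.N)) (x y : X), C.Path x u y →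
      C.r x * C.φ (FreeMonoid.ofList (C.ex u)) =
        C.ι ((u.map fun b => (C.wd_T b).choose).prod) * C.r y := by
  intro u
  induction u with
  | nil =>
    intro x y h
    have : x = y := h
    subst this
    rw [Core.ex_nil, FreeMonoid.ofList_nil, map_one, mul_one, List.map_nil, List.prod_nil, map_one,
      one_mul]
  | cons b u ih =>
    intro x y h
    have h1 := ih (C.tgt b) y h.2
    have h2 := (C.wd_T b).choose_spec
    rw [Core.ex_cons, FreeMonoid.ofList_append, map_mul, List.map_cons, List.prod_cons, map_mul,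
      ← mul_assoc]
    rw [← h.1]
    calc C.r (C.src b) * C.φ (FreeMonoid.ofList (C.wd b)) * C.φ (FreeMonoid.ofList (C.ex u))
        = C.ι (C.wd_T b).choose * C.r (C.tgt b) * C.φ (FreeMonoid.ofList (C.ex u)) :=
          congrArg (· * C.φ (FreeMonoid.ofList (C.ex u))) h2
      _ = C.ι (C.wd_T b).choose * (C.r (C.tgt b) * C.φ (FreeMonoid.ofList (C.ex u))) :=
          mul_assoc _ _ _
      _ = C.ι (C.wd_T b).choose *
          (C.ι (u.map fun b => (C.wd_T b).choose).prod * C.r y) := congrArg _ h1
      _ = _ := (mul_assoc _ _ _).symm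

theorem groupoid_of_core {A G H X : Type} [Group G] [Group H] (C : Core A G H X) :
    GroupoidFCRS G X := by
  have hphi : ∀ u z : List (Fin C.N), ReflTransGen (Step C.RS) u z →
      C.φ (FreeMonoid.ofList (C.ex u)) = C.φ (FreeMonoid.ofList (C.ex z)) := by
    intro u z h
    induction h with
    | refl => rfl
    | tail _ h2 ih => exact ih.trans (Core.phi_step h2)
  refine ⟨C.N, C.src, C.tgt, fun b => (C.wd_T b).choose, C.RS, ?_, ?_, ?_, ?_⟩
  · intro p hp
    obtain ⟨_, _, _, _, x, y, h1, h2⟩ := Core.mem_RS.1 hp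
    exact ⟨x, y, (path_iff C _ _ _).2 h1, (path_iff C _ _ _).2 h2⟩
  · exact Subrelation.wf (fun h => h.2) (Core.terminating_RS (C := C))
  · intro x y g
    have hT : C.T x ((C.r x)⁻¹ * C.ι g * C.r y) y := ⟨g, by group⟩
    obtain ⟨u, hu1, hu2⟩ := Core.exists_path hT
    refine ⟨u, (path_iff C _ _ _).2 hu1, ?_⟩
    have h1 := core_val C u x y hu1
    rw [hu2] at h1
    apply C.inj
    apply mul_right_cancel (b := C.r y)
    rw [← h1]
    group
  · intro x y u v hu hv
    have hu' := (path_iff C _ _ _).1 hu
    have hv' := (path_iff C _ _ _).1 hv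
    have h1 := core_val C u x y hu'
    have h2 := core_val C v x y hv'
    constructor
    · intro h
      have h3 : C.φ (FreeMonoid.ofList (C.ex u)) = C.φ (FreeMonoid.ofList (C.ex v)) := by
        apply mul_left_cancel (a := C.r x)
        rw [h1, h2]
        exact congrArg (fun t => C.ι t * C.r y) h
      obtain ⟨u', a1, a2, a3, a4⟩ := Core.norm u x y hu'
      obtain ⟨v', b1, b2, b3, b4⟩ := Core.norm v x y hv'
      have h4 : u' = v' := by
        refine Core.decomp_unique a2 b2 (C.uniq _ _ a3 b3 ?_)
        rw [← a4, ← b4, h3]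
      subst h4
      exact ⟨u', a1, b1⟩
    · rintro ⟨z, hz1, hz2⟩
      have h3 : C.φ (FreeMonoid.ofList (C.ex u)) = C.φ (FreeMonoid.ofList (C.ex v)) :=
        (hphi u z hz1).trans (hphi v z hz2).symm
      apply C.inj
      apply mul_right_cancel (b := C.r y)
      rw [← h1, ← h2, h3]

theorem path_congr {X Y : Type} (e : X ≃ Y) {N : ℕ} (src tgt : Fin N → X) :
    ∀ (u : List (Fin N)) (x y : X), Path (fun b => e (src b)) (fun b => e (tgt b)) (e x) u (e y) ↔
      Path src tgt x u y := by
  intro u
  induction u with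
  | nil => intro x y; exact e.injective.eq_iff
  | cons b u ih =>
    intro x y
    show (e (src b) = e x ∧ Path (fun b => e (src b)) (fun b => e (tgt b)) (e (tgt b)) u (e y)) ↔
      (src b = x ∧ Path src tgt (tgt b) u y)
    rw [ih, e.injective.eq_iff]

theorem GroupoidFCRS.congr {G X Y : Type} [Group G] (e : X ≃ Y) (h : GroupoidFCRS G X) :
    GroupoidFCRS G Y := by
  obtain ⟨N, src, tgt, lab, R, h1, h2, h3, h4⟩ := h
  have hp : ∀ (u : List (Fin N)) (x y : Y),
      Path (fun b => e (src b)) (fun b => e (tgt b)) x u y ↔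
        Path src tgt (e.symm x) u (e.symm y) := by
    intro u x y
    have := path_congr e src tgt u (e.symm x) (e.symm y)
    rwa [e.apply_symm_apply, e.apply_symm_apply] at this
  refine ⟨N, fun b => e (src b), fun b => e (tgt b), lab, R, ?_, ?_, ?_, ?_⟩
  · intro p hpR
    obtain ⟨x, y, h5, h6⟩ := h1 p hpR
    exact ⟨e x, e y, (path_congr e src tgt _ _ _).2 h5, (path_congr e src tgt _ _ _).2 h6⟩
  · refine Subrelation.wf ?_ h2
    rintro v u ⟨⟨x, y, hxy⟩, hs⟩
    exact ⟨⟨e.symm x, e.symm y, (hp _ _ _).1 hxy⟩, hs⟩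
  · intro x y g
    obtain ⟨u, h5, h6⟩ := h3 (e.symm x) (e.symm y) g
    exact ⟨u, (hp _ _ _).2 h5, h6⟩
  · intro x y u v hu hv
    exact h4 (e.symm x) (e.symm y) u v ((hp _ _ _).1 hu) ((hp _ _ _).1 hv)

/-- From `G * K` to a groupoid with finitely many objects. -/
theorem groupoid_of_hasFCRS (G K : Type) [Group G] [Group K] (h : HasFCRS (Coprod G K)) :
    ∃ k : ℕ, GroupoidFCRS G (Fin (k + 1)) := by
  obtain ⟨n, R, h1, h2, ⟨e⟩⟩ := h
  have hex : ∀ a : Fin n, ∃ (g : G) (l : List (K × G)),
      e.symm (cls R [a]) = Coprod.inl g * val l := fun a => exists_expr _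
  choose g0 s hs using hex
  obtain ⟨X, hX, ⟨C⟩⟩ := exists_core_coprod G K n R h1 h2 e g0 s (fun a => by
    rw [← hs a, MulEquiv.apply_symm_apply])
  have : Nonempty X := ⟨C.x0⟩
  have hpos : 0 < Nat.card X := Nat.card_pos
  refine ⟨Nat.card X - 1, ?_⟩
  have e1 : X ≃ Fin (Nat.card X - 1 + 1) := by
    rw [Nat.sub_add_cancel hpos]
    exact Finite.equivFin X
  exact (groupoid_of_core C).congr e1

/-- From `G` to the groupoid with one object. -/
theorem groupoid_one (G : Type) [Group G] (h : HasFCRS G) : GroupoidFCRS G (Fin 1) := by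
  obtain ⟨n, R, φ, hT, hs, hr, hu⟩ := h.data
  have hval : ∀ u : List (Fin n), (u.map fun b => φ (FreeMonoid.of b)).prod =
      φ (FreeMonoid.ofList u) := by
    intro u
    induction u with
    | nil => simp
    | cons b u ih => rw [List.map_cons, List.prod_cons, ih, FreeMonoid.ofList_cons, map_mul]
  have hpath : ∀ (u : List (Fin n)) (x y : Fin 1),
      Path (fun _ : Fin n => (0 : Fin 1)) (fun _ => 0) x u y := by
    intro u
    induction u with
    | nil => intro x y; exact Subsingleton.elim _ _
    | cons b u ih => intro x y; exact ⟨Subsingleton.elim _ _, ih _ _⟩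
  have hrt : ∀ u z : List (Fin n), ReflTransGen (Step R) u z →
      φ (FreeMonoid.ofList u) = φ (FreeMonoid.ofList z) := by
    intro u z h
    induction h with
    | refl => rfl
    | tail _ h2 ih => exact ih.trans (hr _ _ h2)
  refine ⟨n, fun _ => 0, fun _ => 0, fun b => φ (FreeMonoid.of b), R, ?_, ?_, ?_, ?_⟩
  · intro p _
    exact ⟨0, 0, hpath _ _ _, hpath _ _ _⟩
  · exact Subrelation.wf (fun h => h.2) hT
  · intro x y g
    obtain ⟨u, hu'⟩ := hs g
    exact ⟨u.toList, hpath _ _ _, by rw [hval]; exact hu'⟩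
  · intro x y u v _ _
    rw [hval, hval]
    constructor
    · intro h
      obtain ⟨u', a1, a2⟩ := exists_irred hT u
      obtain ⟨v', b1, b2⟩ := exists_irred hT v
      have : u' = v' := hu _ _ a2 b2 (by rw [← hrt u u' a1, ← hrt v v' b1, h])
      subst this
      exact ⟨u', a1, b1⟩
    · rintro ⟨z, h1, h2⟩
      exact (hrt u z h1).trans (hrt v z h2).symm

theorem hasFCRS_zero (G : Type) [Group G] (h : HasFCRS (Coprod G (FreeGroup (Fin 0)))) :
    HasFCRS G := by
  have e1 : FreeGroup (Fin 0) ≃* PUnit.{1} :=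
    { toFun := fun _ => PUnit.unit
      invFun := fun _ => 1
      left_inv := fun x => Subsingleton.elim _ _
      right_inv := fun x => Subsingleton.elim _ _
      map_mul' := fun x y => rfl }
  exact h.congr ((MulEquiv.coprodCongr (MulEquiv.refl G) e1).trans (MulEquiv.coprodPUnit G))

theorem hasFCRS_of_one (G : Type) [Group G] (h : GroupoidFCRS G (Fin 1)) : HasFCRS G :=
  hasFCRS_zero G (hasFCRS_of_groupoid G 0 h)

/-- `F_(k+1) = F_k * ℤ` -/
noncomputable def freeSucc (k : ℕ) :
    FreeGroup (Fin (k + 1)) ≃* Coprod (FreeGroup (Fin k)) (Multiplicative ℤ) :=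
  MonoidHom.toMulEquiv
    (FreeGroup.lift (Fin.lastCases (Coprod.inr (Multiplicative.ofAdd 1))
      (fun i => Coprod.inl (FreeGroup.of i))))
    (Coprod.lift (FreeGroup.map Fin.castSucc) (zpowersHom _ (FreeGroup.of (Fin.last k))))
    (by
      ext i
      refine Fin.lastCases ?_ (fun i => ?_) i
      · simp
      · simp)
    (by
      apply Coprod.hom_ext
      · ext i
        simp
      · ext
        simp)

/-- `G * F_(k+1) = (G * F_k) * ℤ` -/
noncomputable def coprodSucc (G : Type) [Group G] (k : ℕ) :
    Coprod G (FreeGroup (Fin (k + 1))) ≃*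
      Coprod (Coprod G (FreeGroup (Fin k))) (Multiplicative ℤ) :=
  (MulEquiv.coprodCongr (MulEquiv.refl G) (freeSucc k)).trans
    (MulEquiv.coprodAssoc G (FreeGroup (Fin k)) (Multiplicative ℤ)).symm

theorem descend (hQ : ∀ (G : Type) [Group G],
    HasFCRS (Coprod G (Multiplicative ℤ)) → HasFCRS G) (G : Type) [Group G] (k : ℕ)
    (h : HasFCRS (Coprod G (FreeGroup (Fin k)))) : HasFCRS G := by
  induction k with
  | zero => exact hasFCRS_zero G h
  | succ k ih => exact ih (hQ _ (h.congr (coprodSucc G k)))

end Pool.Agent.H47.GF
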