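import Pool.Agent.H1.RW.FreeProd

/-!
# Finite convergent presentations of a connected groupoid (MP_56d4a1_al)
-/

set_option autoImplicit false

namespace Pool.Agent.H47.GF

open H1.RW Monoid Relation

/-- `u` is a path from `x` to `y` in the quiver with the arrows `b : src b → tgt b`. -/
def Path {X : Type} {N : ℕ} (src tgt : Fin N → X) : X → List (Fin N) → X → Prop
  | x, [], y => x = y
  | x, b :: u, y => src b = x ∧ Path src tgt (tgt b) u y

/-- The connected groupoid with vertex group `G` and set of objects `X` (all sets of morphisms are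
`G`, composition is the product) has a finite convergent presentation: finitely many arrows
`b : src b → tgt b` with values `lab b` in `G` and finitely many rules `R` between parallel paths,
terminating on paths, such that every morphism is the value of a path and two parallel paths have
the same value if and only if they have a common descendant. -/
def GroupoidFCRS (G : Type) [Group G] (X : Type) : Prop :=
  ∃ (N : ℕ) (src tgt : Fin N → X) (lab : Fin N → G) (R : List (List (Fin N) × List (Fin N))),
    (∀ p ∈ R, ∃ x y, Path src tgt x p.1 y ∧ Path src tgt x p.2 y) ∧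
    WellFounded (fun v u : List (Fin N) => (∃ x y, Path src tgt x u y) ∧ Step R u v) ∧
    (∀ x y g, ∃ u, Path src tgt x u y ∧ (u.map lab).prod = g) ∧
    (∀ x y u v, Path src tgt x u y → Path src tgt x v y →
      ((u.map lab).prod = (v.map lab).prod ↔
        ∃ z, ReflTransGen (Step R) u z ∧ ReflTransGen (Step R) v z))

section

variable {G X : Type} [Group G] {N : ℕ} {src tgt : Fin N → X} {lab : Fin N → G}
  {R : List (List (Fin N) × List (Fin N))}

theorem path_append {x z : X} {u v : List (Fin N)} :
    Path src tgt x (u ++ v) z ↔ ∃ y, Path src tgt x u y ∧ Path src tgt y v z := by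
  induction u generalizing x with
  | nil => simp [Path]
  | cons b u ih =>
    simp only [List.cons_append, Path, ih]
    constructor
    · rintro ⟨h1, y, h2, h3⟩
      exact ⟨y, ⟨h1, h2⟩, h3⟩
    · rintro ⟨y, ⟨h1, h2⟩, h3⟩
      exact ⟨h1, y, h2, h3⟩

theorem Path.start {x y x' y' : X} {u : List (Fin N)} (hu : u ≠ []) (h : Path src tgt x u y)
    (h' : Path src tgt x' u y') : x = x' := by
  cases u with
  | nil => exact absurd rfl hu
  | cons b u => exact h.1.symm.trans h'.1

theorem Path.end_eq {x y y' : X} {u : List (Fin N)} (h : Path src tgt x u y)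
    (h' : Path src tgt x u y') : y = y' := by
  induction u generalizing x with
  | nil => exact h.symm.trans h'
  | cons b u ih => exact ih h.2 h'.2

/-- a path between some objects -/
def IsPath (src tgt : Fin N → X) (u : List (Fin N)) : Prop := ∃ x y, Path src tgt x u y

theorem glue {s l t : List (Fin N)} (hl : l ≠ []) (h1 : IsPath src tgt (s ++ l))
    (h2 : IsPath src tgt (l ++ t)) : IsPath src tgt (s ++ l ++ t) := by
  obtain ⟨x, y, h1⟩ := h1
  obtain ⟨x', y', h2⟩ := h2
  obtain ⟨m, h3, h4⟩ := path_append.1 h1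
  obtain ⟨m', h5, h6⟩ := path_append.1 h2
  have e1 : m = x' := Path.start hl h4 h5
  subst e1
  have e2 : y = m' := Path.end_eq h4 h5
  subst e2
  exact ⟨x, y', path_append.2 ⟨y, h1, h6⟩⟩

theorem rule_ne (hR : ∀ p ∈ R, ∃ x y, Path src tgt x p.1 y ∧ Path src tgt x p.2 y)
    (hT : WellFounded (fun v u : List (Fin N) => (∃ x y, Path src tgt x u y) ∧ Step R u v)) :
    ∀ p ∈ R, p.1 ≠ [] := by
  rintro ⟨l, q⟩ hp hl
  simp only at hl
  subst hl
  obtain ⟨x, y, h1, h2⟩ := hR _ hp
  have e : x = y := h1
  subst e
  -- the paths `q^n`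
  have hpath : ∀ n : ℕ, Path src tgt x (List.replicate n q).flatten x := by
    intro n
    induction n with
    | zero => exact rfl
    | succ n ih =>
      rw [List.replicate_succ, List.flatten_cons]
      exact path_append.2 ⟨x, h2, ih⟩
  have hwf : ∀ u : List (Fin N), (∃ n : ℕ, u = (List.replicate n q).flatten) → False := by
    intro u
    induction u using hT.induction with
    | _ u ih =>
      rintro ⟨n, rfl⟩
      refine ih (List.replicate (n + 1) q).flatten ⟨⟨x, x, hpath n⟩, ?_⟩ ⟨n + 1, rfl⟩
      refine ⟨[], (List.replicate n q).flatten, ([], q), hp, by simp, ?_⟩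
      rw [List.replicate_succ, List.flatten_cons]
      simp
  exact hwf [] ⟨0, rfl⟩

theorem path_step (hR : ∀ p ∈ R, ∃ x y, Path src tgt x p.1 y ∧ Path src tgt x p.2 y)
    (hne : ∀ p ∈ R, p.1 ≠ []) {u v : List (Fin N)} {x y : X} (h : Step R u v)
    (hp : Path src tgt x u y) : Path src tgt x v y := by
  obtain ⟨a, b, p, hpR, rfl, rfl⟩ := h
  obtain ⟨x', y', h1, h2⟩ := hR p hpR
  rw [path_append] at hp
  obtain ⟨z, hp, hb⟩ := hp
  rw [path_append] at hp
  obtain ⟨z', ha, hp⟩ := hp
  have e1 : z' = x' := Path.start (hne p hpR) hp h1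
  subst e1
  have e2 : z = y' := Path.end_eq hp h1
  subst e2
  rw [path_append]
  refine ⟨z, ?_, hb⟩
  rw [path_append]
  exact ⟨z', ha, h2⟩

/-! ### termination on all words -/

/-- `w` is a product of `n` paths -/
def B (src tgt : Fin N → X) : ℕ → List (Fin N) → Prop
  | 0, w => w = []
  | n + 1, w => ∃ p w', w = p ++ w' ∧ IsPath src tgt p ∧ B src tgt n w'

theorem B_mono [Nonempty X] {n : ℕ} {w : List (Fin N)} (h : B src tgt n w) :
    B src tgt (n + 1) w :=
  ⟨[], w, rfl, ⟨Classical.arbitrary X, Classical.arbitrary X, rfl⟩, h⟩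

theorem B_length (w : List (Fin N)) : B src tgt w.length w := by
  induction w with
  | nil => rfl
  | cons a w ih => exact ⟨[a], w, rfl, ⟨src a, tgt a, rfl, rfl⟩, ih⟩

theorem B_merge [Nonempty X] (n : ℕ) : ∀ (w' p l t : List (Fin N)), B src tgt n w' →
    w' = l ++ t → l ≠ [] → p ≠ [] → IsPath src tgt p → IsPath src tgt (p ++ l) →
    B src tgt n (p ++ w') := by
  induction n with
  | zero =>
    intro w' p l t h1 h2 h3 _ _ _
    have : w' = [] := h1
    rw [this] at h2
    exact absurd (List.append_eq_nil_iff.1 h2.symm).1 h3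
  | succ n ih =>
    intro w' p l t h1 h2 h3 h4 h5 h6
    obtain ⟨q, w'', rfl, hq, hw''⟩ := h1
    cases q with
    | nil => exact B_mono (ih _ p l t hw'' h2 h3 h4 h5 h6)
    | cons c q =>
      cases l with
      | nil => exact absurd rfl h3
      | cons c' l =>
        rw [List.cons_append, List.cons_append] at h2
        have hc : c = c' := (List.cons.inj h2).1
        subst hc
        have h7 : IsPath src tgt (p ++ [c]) := by
          obtain ⟨x, y, h⟩ := h6
          have e : p ++ c :: l = (p ++ [c]) ++ l := by simp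
          rw [e] at h
          obtain ⟨m, h, _⟩ := path_append.1 h
          exact ⟨x, m, h⟩
        have h8 : IsPath src tgt (p ++ [c] ++ q) := glue (by simp) h7 hq
        refine ⟨p ++ [c] ++ q, w'', by simp, h8, hw''⟩

/-- the three positions of a step in a product -/
theorem step_cases (hR : ∀ p ∈ R, ∃ x y, Path src tgt x p.1 y ∧ Path src tgt x p.2 y)
    [Nonempty X] {n : ℕ} {p w' v : List (Fin N)}
    (hp : IsPath src tgt p) (hw' : B src tgt n w') (h : Step R (p ++ w') v) :
    (∃ p', Step R p p' ∧ v = p' ++ w') ∨ (∃ w'', Step R w' w'' ∧ v = p ++ w'') ∨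
      B src tgt n (p ++ w') := by
  obtain ⟨a, b, q, hq, h1, rfl⟩ := h
  rw [List.append_assoc] at h1
  rcases List.append_eq_append_iff.1 h1 with ⟨e, he1, he2⟩ | ⟨e, he1, he2⟩
  · -- a = p ++ e, w' = e ++ (q.1 ++ b)
    right; left
    refine ⟨e ++ q.2 ++ b, ⟨e, b, q, hq, ?_, rfl⟩, ?_⟩
    · rw [he2]; simp
    · rw [he1]; simp
  · -- p = a ++ e, q.1 ++ b = e ++ w'
    rcases List.append_eq_append_iff.1 he2 with ⟨f, hf1, hf2⟩ | ⟨f, hf1, hf2⟩
    · -- e = q.1 ++ f, b = f ++ w'
      left
      refine ⟨a ++ q.2 ++ f, ⟨a, f, q, hq, ?_, rfl⟩, ?_⟩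
      · rw [he1, hf1]; simp
      · rw [hf2]; simp
    · -- q.1 = e ++ f, w' = f ++ b
      by_cases he0 : e = []
      · right; left
        subst he0
        rw [List.nil_append] at hf1
        rw [List.append_nil] at he1
        refine ⟨q.2 ++ b, ⟨[], b, q, hq, ?_, ?_⟩, ?_⟩
        · rw [hf2, hf1]; simp
        · simp
        · rw [he1]; simp
      by_cases hf0 : f = []
      · left
        subst hf0
        rw [List.append_nil] at hf1
        rw [List.nil_append] at hf2
        refine ⟨a ++ q.2, ⟨a, [], q, hq, ?_, ?_⟩, ?_⟩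
        · rw [he1, hf1]; simp
        · simp
        · rw [hf2]
      right; right
      obtain ⟨x', y', h3, _⟩ := hR q hq
      have h4 : IsPath src tgt (e ++ f) := ⟨x', y', by rw [← hf1]; exact h3⟩
      have h5 : IsPath src tgt (p ++ f) := by
        rw [he1]
        exact glue he0 (by rw [← he1]; exact hp) h4
      exact B_merge n w' p f b hw' hf2 hf0 (by rw [he1]; simp [he0]) hp h5

theorem B_step (hR : ∀ p ∈ R, ∃ x y, Path src tgt x p.1 y ∧ Path src tgt x p.2 y)
    (hne : ∀ p ∈ R, p.1 ≠ []) [Nonempty X] (n : ℕ) : ∀ (w v : List (Fin N)),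
    B src tgt n w → Step R w v → B src tgt n v := by
  induction n with
  | zero =>
    intro w v h1 h2
    have : w = [] := h1
    subst this
    obtain ⟨a, b, q, hq, h3, _⟩ := h2
    have h4 := List.append_eq_nil_iff.1 h3.symm
    have h5 := List.append_eq_nil_iff.1 h4.1
    exact absurd h5.2 (hne q hq)
  | succ n ih =>
    intro w v h1 h2
    obtain ⟨p, w', rfl, hp, hw'⟩ := h1
    rcases step_cases hR hp hw' h2 with ⟨p', h3, rfl⟩ | ⟨w'', h3, rfl⟩ | h3
    · obtain ⟨x, y, hxy⟩ := hp
      exact ⟨p', w', rfl, ⟨x, y, path_step hR hne h3 hxy⟩, hw'⟩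
    · exact ⟨p, w'', rfl, hp, ih _ _ hw' h3⟩
    · exact B_mono (ih _ _ h3 h2)

theorem terminating (hR : ∀ p ∈ R, ∃ x y, Path src tgt x p.1 y ∧ Path src tgt x p.2 y)
    (hT : WellFounded (fun v u : List (Fin N) => (∃ x y, Path src tgt x u y) ∧ Step R u v))
    [Nonempty X] : Terminating R := by
  have hne := rule_ne hR hT
  have hpath : ∀ p : List (Fin N), IsPath src tgt p →
      Acc (fun v u : List (Fin N) => Step R u v) p := by
    intro p
    induction p using hT.induction with
    | _ p ih =>
      intro hp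
      refine Acc.intro _ fun v hv => ih v ⟨hp, hv⟩ ?_
      obtain ⟨x, y, hxy⟩ := hp
      exact ⟨x, y, path_step hR hne hv hxy⟩
  have hB : ∀ (n : ℕ) (w : List (Fin N)), B src tgt n w →
      Acc (fun v u : List (Fin N) => Step R u v) w := by
    intro n
    induction n with
    | zero =>
      intro w hw
      have : w = [] := hw
      subst this
      refine Acc.intro _ fun v hv => ?_
      obtain ⟨a, b, q, hq, h3, _⟩ := hv
      have h4 := List.append_eq_nil_iff.1 h3.symm
      have h5 := List.append_eq_nil_iff.1 h4.1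
      exact absurd h5.2 (hne q hq)
    | succ n ih =>
      intro w hw
      obtain ⟨p, w', rfl, hp, hw'⟩ := hw
      have hap := hpath p hp
      induction hap generalizing w' with
      | intro p _ ihp =>
        have haw := ih w' hw'
        induction haw with
        | intro w' _ ihw =>
          refine Acc.intro _ fun v hv => ?_
          rcases step_cases hR hp hw' hv with ⟨p', h3, rfl⟩ | ⟨w'', h3, rfl⟩ | h3
          · obtain ⟨x, y, hxy⟩ := hp
            exact ihp p' h3 w' ⟨x, y, path_step hR hne h3 hxy⟩ hw'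
          · exact ihw w'' h3 (B_step hR hne n _ _ hw' h3)
          · exact (ih _ h3).inv hv
  exact ⟨fun w => hB w.length w (B_length w)⟩

end

end Pool.Agent.H47.GF
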